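import Mathlib

set_option autoImplicit false

namespace Pool.Agent.H96wcg

open Set

/-- codes: level and real label -/
abbrev C : Type := ℕ × ℝ

abbrev V : Type := C →₀ ℝ

open Cardinal in
theorem exists_equiv : Nonempty (ℝ ≃ V × ℕ) := by
  rw [← Cardinal.eq]
  have h1 : #V = 𝔠 := by
    rw [show V = (C →₀ ℝ) from rfl, mk_finsupp_of_infinite]
    simp [mk_real]
  simp [h1, mk_real]

noncomputable def eqv : ℝ ≃ V × ℕ := exists_equiv.some

/-- coefficient data of a code -/
noncomputable def dat (c : C) : V := (eqv c.2).1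

/-- the code of level `n` with data `a` and index `k` -/
noncomputable def mkc (n : ℕ) (a : V) (k : ℕ) : C := (n, eqv.symm (a, k))

theorem dat_mkc (n : ℕ) (a : V) (k : ℕ) : dat (mkc n a k) = a := by simp [dat, mkc]

theorem mkc_inj {n : ℕ} {a b : V} {k l : ℕ} (h : mkc n a k = mkc n b l) : k = l := by
  simp only [mkc, Prod.mk.injEq, true_and, EmbeddingLike.apply_eq_iff_eq] at h
  exact h.2

/-- admissible data -/
def Val (c : C) : Prop := (∀ d ∈ (dat c).support, d.1 < c.1) ∧ ∑ d ∈ (dat c).support, |dat c d| ≤ 1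

open Classical in
/-- the defining functionals, by recursion on levels -/
noncomputable def FF : ℕ → ℝ → (V → ℝ)
  | n, y => fun v => v (n, y) + if h : Val (n, y) then
      ∑ d : (dat (n, y)).support, dat (n, y) d * FF d.1.1 d.1.2 v else 0
termination_by n => n
decreasing_by exact h.1 _ d.2

/-- the functional of a code -/
noncomputable def F (c : C) (v : V) : ℝ := FF c.1 c.2 v

open Classical in
theorem F_eq (c : C) (v : V) : F c v = v c + if Val c then
    ∑ d ∈ (dat c).support, dat c d * F d v else 0 := by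
  rcases c with ⟨n, y⟩
  rw [F, FF]
  change (v (n, y) + if h : Val (n, y) then
      ∑ d : (dat (n, y)).support, dat (n, y) d * FF d.1.1 d.1.2 v else 0) = _
  by_cases h : Val (n, y)
  · rw [dif_pos h, if_pos h]
    congr 1
    exact Finset.sum_coe_sort (dat (n, y)).support (fun d => dat (n, y) d * F d v)
  · rw [dif_neg h, if_neg h]

theorem F_of_val {c : C} (h : Val c) (v : V) :
    F c v = v c + ∑ d ∈ (dat c).support, dat c d * F d v := by
  rw [F_eq, if_pos h]

theorem F_of_not_val {c : C} (h : ¬ Val c) (v : V) : F c v = v c := by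
  rw [F_eq, if_neg h, add_zero]

theorem ind {P : C → Prop} (h : ∀ c, (∀ d : C, d.1 < c.1 → P d) → P c) (c : C) : P c := by
  have key : ∀ n : ℕ, ∀ c : C, c.1 = n → P c := by
    intro n
    induction n using Nat.strong_induction_on with
    | _ n ih =>
      intro c hc
      exact h c fun d hd => ih d.1 (hc ▸ hd) d rfl
  exact key _ c rfl

theorem F_add (c : C) (v w : V) : F c (v + w) = F c v + F c w := by
  induction c using ind with
  | _ c ih =>
    by_cases h : Val c
    · rw [F_of_val h, F_of_val h, F_of_val h,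
        Finset.sum_congr rfl fun d hd => by rw [ih d (h.1 d hd)]]
      simp only [mul_add, Finset.sum_add_distrib, Finsupp.add_apply]
      ring
    · rw [F_of_not_val h, F_of_not_val h, F_of_not_val h]
      rfl

theorem F_smul (c : C) (r : ℝ) (v : V) : F c (r • v) = r * F c v := by
  induction c using ind with
  | _ c ih =>
    by_cases h : Val c
    · rw [F_of_val h, F_of_val h,
        Finset.sum_congr rfl fun d hd => by rw [ih d (h.1 d hd)]]
      rw [mul_add, Finset.mul_sum]
      simp only [Finsupp.smul_apply, smul_eq_mul]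
      congr 1
      exact Finset.sum_congr rfl fun d _ => by ring
    · rw [F_of_not_val h, F_of_not_val h]
      rfl

/-- closed sets of codes -/
def Cl (s : Finset C) : Prop := ∀ c ∈ s, Val c → ∀ d ∈ (dat c).support, d ∈ s

theorem F_le {s : Finset C} {v : V} (hv : ∀ c, c ∉ s → v c = 0) {B : ℝ} (hB : 0 ≤ B)
    (h : ∀ c ∈ s, |F c v| ≤ B) (c : C) : |F c v| ≤ B := by
  induction c using ind with
  | _ c ih =>
    by_cases hc : c ∈ s
    · exact h c hc
    · by_cases hv' : Val c
      · rw [F_of_val hv', hv c hc, zero_add]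
        refine (Finset.abs_sum_le_sum_abs _ _).trans ?_
        calc ∑ d ∈ (dat c).support, |dat c d * F d v|
            ≤ ∑ d ∈ (dat c).support, |dat c d| * B := by
              refine Finset.sum_le_sum fun d hd => ?_
              rw [abs_mul]
              exact mul_le_mul_of_nonneg_left (ih d (hv'.1 d hd)) (abs_nonneg _)
          _ = (∑ d ∈ (dat c).support, |dat c d|) * B := by rw [Finset.sum_mul]
          _ ≤ 1 * B := mul_le_mul_of_nonneg_right hv'.2 hB
          _ = B := one_mul B
      · rw [F_of_not_val hv', hv c hc]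
        simpa using hB

theorem exists_bound (v : V) : ∃ B : ℝ, 0 ≤ B ∧ ∀ c, |F c v| ≤ B := by
  refine ⟨∑ c ∈ v.support, |F c v|, Finset.sum_nonneg fun _ _ => abs_nonneg _, ?_⟩
  apply F_le (s := v.support) (fun c hc => Finsupp.notMem_support_iff.1 hc)
    (Finset.sum_nonneg fun _ _ => abs_nonneg _)
  intro c hc
  exact Finset.single_le_sum (f := fun c => |F c v|) (fun _ _ => abs_nonneg _) hc

theorem exists_closure (c : C) : ∃ s : Finset C, c ∈ s ∧ Cl s ∧ ∀ d ∈ s, d.1 ≤ c.1 := by
  classical
  induction c using ind with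
  | _ c ih =>
    by_cases hv : Val c
    · choose! t ht1 ht2 ht3 using ih
      refine ⟨insert c ((dat c).support.biUnion t), Finset.mem_insert_self _ _, ?_, ?_⟩
      · intro d hd hvd i hi
        rcases Finset.mem_insert.1 hd with rfl | hd
        · exact Finset.mem_insert_of_mem (Finset.mem_biUnion.2 ⟨i, hi, ht1 i (hv.1 i hi)⟩)
        · obtain ⟨j, hj, hdj⟩ := Finset.mem_biUnion.1 hd
          exact Finset.mem_insert_of_mem (Finset.mem_biUnion.2
            ⟨j, hj, ht2 j (hv.1 j hj) d hdj hvd i hi⟩)
      · intro d hd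
        rcases Finset.mem_insert.1 hd with rfl | hd
        · exact le_rfl
        · obtain ⟨j, hj, hdj⟩ := Finset.mem_biUnion.1 hd
          exact (ht3 j (hv.1 j hj) d hdj).trans (hv.1 j hj).le
    · refine ⟨{c}, Finset.mem_singleton_self c, ?_, ?_⟩
      · intro d hd hvd
        rw [Finset.mem_singleton.1 hd] at hvd
        exact absurd hvd hv
      · intro d hd
        rw [Finset.mem_singleton.1 hd]

theorem exists_closure' (t : Finset C) : ∃ s : Finset C, t ⊆ s ∧ Cl s := by
  classical
  choose r hr1 hr2 hr3 using exists_closure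
  refine ⟨t.biUnion r, fun c hc => Finset.mem_biUnion.2 ⟨c, hc, hr1 c⟩, ?_⟩
  intro c hc hv d hd
  obtain ⟨j, hj, hcj⟩ := Finset.mem_biUnion.1 hc
  exact Finset.mem_biUnion.2 ⟨j, hj, hr2 j c hcj hv d hd⟩

open Classical in
/-- the lift of prescribed values -/
noncomputable def lift (s : Finset C) (w : C → ℝ) : V :=
  ∑ c ∈ s, Finsupp.single c (w c - if Val c then ∑ d ∈ (dat c).support, dat c d * w d else 0)

open Classical in
theorem lift_apply (s : Finset C) (w : C → ℝ) (c : C) (hc : c ∈ s) :
    lift s w c = w c - if Val c then ∑ d ∈ (dat c).support, dat c d * w d else 0 := by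
  rw [lift, Finsupp.finsetSum_apply, Finset.sum_eq_single c]
  · simp
  · intro d _ hd
    rw [Finsupp.single_apply, if_neg hd]
  · intro h; exact absurd hc h

theorem lift_apply_not (s : Finset C) (w : C → ℝ) (c : C) (hc : c ∉ s) :
    lift s w c = 0 := by
  rw [lift, Finsupp.finsetSum_apply]
  apply Finset.sum_eq_zero
  intro d hd
  have hdc : d ≠ c := fun h => hc (h ▸ hd)
  rw [Finsupp.single_apply, if_neg hdc]

theorem F_lift {s : Finset C} (hs : Cl s) (w : C → ℝ) (c : C) (hc : c ∈ s) :
    F c (lift s w) = w c := by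
  induction c using ind with
  | _ c ih =>
    by_cases hv : Val c
    · rw [F_of_val hv, lift_apply s w c hc, if_pos hv]
      have : ∑ d ∈ (dat c).support, dat c d * F d (lift s w) =
          ∑ d ∈ (dat c).support, dat c d * w d :=
        Finset.sum_congr rfl fun d hd => by rw [ih d (hv.1 d hd) (hs c hc hv d hd)]
      rw [this]
      ring
    · rw [F_of_not_val hv, lift_apply s w c hc, if_neg hv, sub_zero]

open scoped ENNReal

/-- the ambient space -/
abbrev Amb : Type := lp (fun _ : C => ℝ) ∞

theorem mem_infty (v : V) : Memℓp (fun c : C => F c v) ∞ := by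
  obtain ⟨B, -, hB⟩ := exists_bound v
  exact memℓp_infty ⟨B, by rintro _ ⟨c, rfl⟩; exact hB c⟩

/-- the embedding -/
noncomputable def io : V →ₗ[ℝ] Amb where
  toFun v := ⟨fun c => F c v, mem_infty v⟩
  map_add' v w := by ext c; exact F_add c v w
  map_smul' r v := by ext c; exact F_smul c r v

theorem norm_io_le {v : V} {B : ℝ} (hB : 0 ≤ B) (h : ∀ c, |F c v| ≤ B) : ‖io v‖ ≤ B :=
  lp.norm_le_of_forall_le hB h

theorem le_norm_io (v : V) (c : C) : |F c v| ≤ ‖io v‖ :=
  lp.norm_apply_le_norm ENNReal.top_ne_zero (io v) c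

theorem norm_io_le' {s : Finset C} {v : V} (hv : ∀ c, c ∉ s → v c = 0) {B : ℝ} (hB : 0 ≤ B)
    (h : ∀ c ∈ s, |F c v| ≤ B) : ‖io v‖ ≤ B :=
  norm_io_le hB (F_le hv hB h)

/-- the space -/
noncomputable def X : Submodule ℝ Amb := (LinearMap.range io).topologicalClosure

end Pool.Agent.H96wcg
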