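import Pool.Agent.H96wcg.Basic

set_option autoImplicit false

namespace Pool.Agent.H96wcg

open Set

universe u v

theorem lift_add (s : Finset C) (w w' : C → ℝ) : lift s (w + w') = lift s w + lift s w' := by
  classical
  ext c
  by_cases hc : c ∈ s
  · rw [Finsupp.add_apply, lift_apply s _ c hc, lift_apply s _ c hc, lift_apply s _ c hc]
    by_cases hv : Val c
    · simp only [if_pos hv, Pi.add_apply, mul_add, Finset.sum_add_distrib]
      ring
    · simp only [if_neg hv, Pi.add_apply]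
      ring
  · rw [Finsupp.add_apply, lift_apply_not s _ c hc, lift_apply_not s _ c hc,
      lift_apply_not s _ c hc, add_zero]

theorem lift_smul (s : Finset C) (r : ℝ) (w : C → ℝ) : lift s (r • w) = r • lift s w := by
  classical
  ext c
  by_cases hc : c ∈ s
  · rw [Finsupp.smul_apply, lift_apply s _ c hc, lift_apply s _ c hc]
    by_cases hv : Val c
    · simp only [if_pos hv, Pi.smul_apply, smul_eq_mul, mul_sub, Finset.mul_sum]
      congr 1
      exact Finset.sum_congr rfl fun d _ => by ring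
    · simp only [if_neg hv, Pi.smul_apply, smul_eq_mul]
      ring
  · rw [Finsupp.smul_apply, lift_apply_not s _ c hc, lift_apply_not s _ c hc, smul_zero]

/-- the lift as a linear map -/
noncomputable def liftL (s : Finset C) : (C → ℝ) →ₗ[ℝ] V where
  toFun := lift s
  map_add' := lift_add s
  map_smul' r w := lift_smul s r w

theorem F_sub (c : C) (v w : V) : F c (v - w) = F c v - F c w := by
  have h1 : v - w = v + (-1 : ℝ) • w := by simp [sub_eq_add_neg]
  rw [h1, F_add, F_smul]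
  ring

theorem io_eq {s : Finset C} {v w : V} (hv : ∀ c, c ∉ s → v c = 0) (hw : ∀ c, c ∉ s → w c = 0)
    (h : ∀ c ∈ s, F c v = F c w) : io v = io w := by
  have : ‖io (v - w)‖ ≤ 0 := norm_io_le' (s := s) (fun c hc => by
    rw [Finsupp.sub_apply, hv c hc, hw c hc, sub_zero]) le_rfl (fun c hc => by
      rw [F_sub, h c hc, sub_self, abs_zero])
  rw [map_sub] at this
  exact sub_eq_zero.1 (norm_le_zero_iff.1 this)

theorem coeffs {s : Finset C} (hs : Cl s) (G : Amb →L[ℝ] ℝ) (hG : ‖G‖ ≤ 1) :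
    ∃ a : V, a.support ⊆ s ∧ ∑ c ∈ a.support, |a c| ≤ 1 ∧
      ∀ v : V, (∀ c, c ∉ s → v c = 0) → G (io v) = ∑ c ∈ a.support, a c * F c v := by
  classical
  let u : C → V := fun c => lift s (Pi.single c 1)
  let a : V := ∑ c ∈ s, Finsupp.single c (G (io (u c)))
  have ha : ∀ c ∈ s, a c = G (io (u c)) := by
    intro c hc
    rw [Finsupp.finsetSum_apply, Finset.sum_eq_single c]
    · simp
    · intro d _ hd
      rw [Finsupp.single_apply, if_neg hd]
    · intro h; exact absurd hc h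
  have ha' : ∀ c, c ∉ s → a c = 0 := by
    intro c hc
    rw [Finsupp.finsetSum_apply]
    apply Finset.sum_eq_zero
    intro d hd
    have hdc : d ≠ c := fun h => hc (h ▸ hd)
    rw [Finsupp.single_apply, if_neg hdc]
  have hsup : a.support ⊆ s := by
    intro c hc
    by_contra h
    exact (Finsupp.mem_support_iff.1 hc) (ha' c h)
  have hGle : ∀ x, |G x| ≤ ‖x‖ := fun x => (G.le_opNorm x).trans
    ((mul_le_mul_of_nonneg_right hG (norm_nonneg _)).trans (by rw [one_mul]))
  have hrep : ∀ v : V, (∀ c, c ∉ s → v c = 0) → G (io v) = ∑ c ∈ s, a c * F c v := by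
    intro v hv
    have h1 : io v = io (liftL s (∑ c ∈ s, F c v • (Pi.single c 1 : C → ℝ))) := by
      refine io_eq hv (fun c hc => lift_apply_not s _ c hc) fun c hc => ?_
      change _ = F c (lift s _)
      rw [F_lift hs _ c hc, Finset.sum_apply, Finset.sum_eq_single c]
      · simp
      · intro d _ hd
        simp [Ne.symm hd]
      · intro h; exact absurd hc h
    rw [h1, map_sum, map_sum, map_sum]
    refine Finset.sum_congr rfl fun c hc => ?_
    rw [map_smul, map_smul, map_smul, smul_eq_mul, ha c hc, mul_comm]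
    rfl
  refine ⟨a, hsup, ?_, fun v hv => ?_⟩
  · have h2 : ∑ c ∈ a.support, |a c| = ∑ c ∈ s, |a c| :=
      Finset.sum_subset hsup fun c _ hc => by
        rw [Finsupp.notMem_support_iff.1 hc, abs_zero]
    rw [h2]
    let sg : C → ℝ := fun c => (SignType.sign (a c) : ℝ)
    have h3 : ∑ c ∈ s, |a c| = G (io (lift s sg)) := by
      rw [hrep _ (fun c hc => lift_apply_not s _ c hc)]
      refine Finset.sum_congr rfl fun c hc => ?_
      rw [F_lift hs _ c hc, mul_comm]
      exact (sign_mul_self _).symm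
    rw [h3]
    refine (le_abs_self _).trans ((hGle _).trans ?_)
    refine norm_io_le' (s := s) (fun c hc => lift_apply_not s _ c hc) zero_le_one fun c hc => ?_
    rw [F_lift hs _ c hc]
    rcases lt_trichotomy (a c) 0 with h | h | h <;> simp [sg, h]
  · rw [hrep v hv]
    refine (Finset.sum_subset hsup fun c _ hc => ?_).symm
    rw [Finsupp.notMem_support_iff.1 hc, zero_mul]

theorem dominated {P : Type u} [AddCommGroup P] [Module ℝ P] {E : Type v}
    [NormedAddCommGroup E] [NormedSpace ℝ E] (L : P →ₗ[ℝ] E) (ξ : P →ₗ[ℝ] ℝ)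
    (h : ∀ x, |ξ x| ≤ ‖L x‖) : ∃ G : E →L[ℝ] ℝ, ‖G‖ ≤ 1 ∧ ∀ x, G (L x) = ξ x := by
  obtain ⟨r, hr⟩ := L.rangeRestrict.exists_rightInverse_of_surjective (LinearMap.range_rangeRestrict L)
  have hr' : ∀ y : LinearMap.range L, L (r y) = y := fun y => by
    have := LinearMap.congr_fun hr y
    exact congrArg Subtype.val this
  let η : LinearMap.range L →L[ℝ] ℝ := LinearMap.mkContinuous (ξ.comp r) 1 (fun y => by
    rw [one_mul, Real.norm_eq_abs, LinearMap.comp_apply]
    refine (h (r y)).trans ?_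
    rw [hr']
    rfl)
  obtain ⟨G, hG1, hG2⟩ := exists_extension_norm_eq (LinearMap.range L) η
  refine ⟨G, ?_, fun x => ?_⟩
  · rw [hG2]; exact LinearMap.mkContinuous_norm_le _ zero_le_one _
  · have h1 := hG1 ⟨L x, LinearMap.mem_range_self L x⟩
    simp only at h1
    rw [h1]
    change ξ (r ⟨L x, _⟩) = ξ x
    have h2 := h (r ⟨L x, LinearMap.mem_range_self L x⟩ - x)
    rw [map_sub, map_sub, hr', sub_self, norm_zero] at h2
    exact sub_eq_zero.1 (abs_nonpos_iff.1 h2)

theorem exists_net (T : Type u) [NormedAddCommGroup T] [NormedSpace ℝ T] [FiniteDimensional ℝ T]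
    {δ : ℝ} (hδ : 0 < δ) : ∃ (N : ℕ) (h : Fin N → (T →L[ℝ] ℝ)), (∀ k, ‖h k‖ ≤ 1) ∧
      ∀ t : T, t ≠ 0 → ∃ k, (1 - δ) * ‖t‖ ≤ |h k t| := by
  have : ProperSpace T := FiniteDimensional.proper ℝ T
  obtain ⟨A, hA, hfin, hcov⟩ := (isCompact_sphere (0 : T) 1).finite_cover_balls hδ
  choose g hg1 hg2 using fun x : T => exists_dual_vector'' ℝ x
  let e := hfin.toFinset.equivFin
  refine ⟨_, fun k => g (e.symm k), fun k => hg1 _, fun t ht => ?_⟩
  have hn : ‖t‖ ≠ 0 := norm_ne_zero_iff.2 ht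
  have h1 : ‖t‖⁻¹ • t ∈ Metric.sphere (0 : T) 1 := by
    rw [mem_sphere_zero_iff_norm, norm_smul, norm_inv, norm_norm, inv_mul_cancel₀ hn]
  obtain ⟨x, hx, hxt⟩ := mem_iUnion₂.1 (hcov h1)
  refine ⟨e ⟨x, hfin.mem_toFinset.2 hx⟩, ?_⟩
  simp only [Equiv.symm_apply_apply]
  have hx1 : ‖x‖ = 1 := by simpa using hA hx
  have h2 : |g x (‖t‖⁻¹ • t - x)| ≤ δ := by
    refine ((g x).le_opNorm _).trans ?_
    calc ‖g x‖ * ‖‖t‖⁻¹ • t - x‖ ≤ 1 * ‖‖t‖⁻¹ • t - x‖ :=
          mul_le_mul_of_nonneg_right (hg1 x) (norm_nonneg _)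
      _ ≤ δ := by rw [one_mul, ← dist_eq_norm]; exact (Metric.mem_ball.1 hxt).le
  have h3 : g x x = 1 := by rw [hg2 x, hx1]; rfl
  rw [map_sub, h3, map_smul, smul_eq_mul] at h2
  have h4 : 1 - δ ≤ ‖t‖⁻¹ * g x t := by
    have := (abs_le.1 h2).1
    linarith
  have h5 : (1 - δ) * ‖t‖ ≤ g x t := by
    calc (1 - δ) * ‖t‖ ≤ ‖t‖⁻¹ * g x t * ‖t‖ :=
          mul_le_mul_of_nonneg_right h4 (norm_nonneg _)
      _ = g x t := by field_simp
  exact h5.trans (le_abs_self _)

theorem exists_approx {P : Type u} [NormedAddCommGroup P] [NormedSpace ℝ P]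
    [FiniteDimensional ℝ P] (f : P →ₗᵢ[ℝ] X) {δ : ℝ} (hδ : 0 < δ) :
    ∃ (w : P →ₗ[ℝ] V) (s : Finset C), Cl s ∧ (∀ x, ∀ c, c ∉ s → w x c = 0) ∧
      ∀ x, ‖io (w x) - f x‖ ≤ δ * ‖x‖ := by
  classical
  let b := Module.finBasis ℝ P
  let M : ℝ := Fintype.card (Fin (Module.finrank ℝ P)) • ‖b.equivFunL.toContinuousLinearMap‖
  have hM : 0 ≤ M := by positivity
  have hδ' : 0 < δ / (M + 1) := by positivity
  have h1 : ∀ i, ∃ v : V, ‖io v - f (b i)‖ ≤ δ / (M + 1) := by
    intro i
    have : (f (b i) : Amb) ∈ closure (LinearMap.range io : Set Amb) := (f (b i)).2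
    obtain ⟨y, ⟨v, rfl⟩, h⟩ := Metric.mem_closure_iff.1 this _ hδ'
    exact ⟨v, by rw [dist_comm, dist_eq_norm] at h; exact h.le⟩
  choose v hv using h1
  obtain ⟨s, hs1, hs2⟩ := exists_closure' (Finset.univ.biUnion fun i => (v i).support)
  refine ⟨b.constr ℝ v, s, hs2, fun x c hc => ?_, fun x => ?_⟩
  · rw [b.constr_apply_fintype (S := ℝ), Finsupp.finsetSum_apply]
    apply Finset.sum_eq_zero
    intro i _
    rw [Finsupp.smul_apply]
    have : v i c = 0 := by
      by_contra h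
      exact hc (hs1 (Finset.mem_biUnion.2 ⟨i, Finset.mem_univ _, Finsupp.mem_support_iff.2 h⟩))
    rw [this, smul_zero]
  · let L : P →L[ℝ] Amb := LinearMap.toContinuousLinearMap
      (io.comp (b.constr ℝ v) - X.subtype.comp f.toLinearMap)
    have hL : ‖L‖ ≤ M * (δ / (M + 1)) := by
      refine b.opNorm_le hδ'.le fun i => ?_
      change ‖io (b.constr ℝ v (b i)) - (f (b i) : Amb)‖ ≤ _
      rw [b.constr_basis]
      exact hv i
    have h2 : M * (δ / (M + 1)) ≤ δ := by
      rw [mul_div_assoc', div_le_iff₀ (by positivity)]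
      nlinarith
    exact (L.le_opNorm x).trans (mul_le_mul_of_nonneg_right (hL.trans h2) (norm_nonneg _))

end Pool.Agent.H96wcg
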