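import Pool.Agent.H96wcg.Gur

set_option autoImplicit false

namespace Pool.Agent.H96wcg

open Set

universe u

theorem gurarii {T : Type u} [NormedAddCommGroup T] [NormedSpace ℝ T] [FiniteDimensional ℝ T]
    (P : Submodule ℝ T) (f : P →ₗᵢ[ℝ] X) {ε : ℝ} (hε : 0 < ε) :
    ∃ g : T →ₗ[ℝ] X, (∀ t, (1 + ε)⁻¹ * ‖t‖ ≤ ‖g t‖ ∧ ‖g t‖ ≤ (1 + ε) * ‖t‖) ∧
      ∀ x : P, g x = f x := by
  classical
  -- a projection
  obtain ⟨Q, hQ⟩ := P.exists_isCompl
  let pr : T →L[ℝ] P := LinearMap.toContinuousLinearMap (P.projectionOnto Q hQ)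
  have hpr : ∀ x : P, pr x = x := fun x => Submodule.projectionOnto_apply_left hQ x
  set M : ℝ := ‖pr‖ with hM
  have hM0 : 0 ≤ M := by rw [hM]; exact norm_nonneg pr
  set δ : ℝ := min (1 / 2) (ε / ((1 + ε) * (2 + M))) with hδd
  have hδ : 0 < δ := lt_min (by norm_num) (by positivity)
  have hδ1 : δ ≤ 1 / 2 := min_le_left _ _
  have hδ2 : δ * (2 + M) ≤ ε / (1 + ε) := by
    have : δ ≤ ε / ((1 + ε) * (2 + M)) := min_le_right _ _
    calc δ * (2 + M) ≤ ε / ((1 + ε) * (2 + M)) * (2 + M) := by gcongr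
      _ = ε / (1 + ε) := by field_simp
  obtain ⟨w, s, hs, hws, hw⟩ := exists_approx f hδ
  have hwle : ∀ x, ‖io (w x)‖ ≤ (1 + δ) * ‖x‖ := by
    intro x
    have h1 := norm_le_norm_add_norm_sub' (io (w x)) (f x : Amb)
    have h2 : ‖(f x : Amb)‖ = ‖x‖ := f.norm_map x
    rw [h2] at h1
    linarith [hw x]
  have hwge : ∀ x, (1 - δ) * ‖x‖ ≤ ‖io (w x)‖ := by
    intro x
    have h1 := norm_le_norm_add_norm_sub (io (w x)) (f x : Amb)
    have h2 : ‖(f x : Amb)‖ = ‖x‖ := f.norm_map x
    rw [h2] at h1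
    linarith [hw x]
  obtain ⟨N, h, hh1, hh2⟩ := exists_net T hδ
  -- coefficients
  have hco : ∀ k, ∃ a : V, a.support ⊆ s ∧ ∑ c ∈ a.support, |a c| ≤ 1 ∧
      ∀ x : P, (1 - δ) * h k x = ∑ c ∈ a.support, a c * F c (w x) := by
    intro k
    obtain ⟨G, hG1, hG2⟩ := dominated (io.comp w)
      ((1 - δ) • ((h k).toLinearMap.comp P.subtype)) (by
        intro x
        refine le_trans ?_ (hwge x)
        change |(1 - δ) * h k x| ≤ _
        rw [abs_mul, abs_of_nonneg (by linarith)]
        refine mul_le_mul_of_nonneg_left ?_ (by linarith)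
        refine ((h k).le_opNorm _).trans ?_
        exact (mul_le_mul_of_nonneg_right (hh1 k) (norm_nonneg _)).trans (by rw [one_mul]; rfl))
    obtain ⟨a, ha1, ha2, ha3⟩ := coeffs hs G hG1
    refine ⟨a, ha1, ha2, fun x => ?_⟩
    rw [← ha3 (w x) (hws x)]
    exact (hG2 x).symm
  choose a ha1 ha2 ha3 using hco
  -- extensions of the coordinates
  have hext : ∀ c, ∃ g : T →L[ℝ] ℝ, (∀ x : P, g x = F c (w x)) ∧ ‖g‖ ≤ 1 + δ := by
    intro c
    let φ : P →ₗ[ℝ] ℝ := ⟨⟨fun x => F c (w x), fun x y => by rw [map_add, F_add]⟩,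
      fun r x => by simp only [map_smul, F_smul]; rfl⟩
    obtain ⟨g, hg1, hg2⟩ := exists_extension_norm_eq P (φ.mkContinuous (1 + δ) (fun x =>
      (le_norm_io (w x) c).trans (hwle x)))
    refine ⟨g, fun x => hg1 x, ?_⟩
    rw [hg2]
    exact LinearMap.mkContinuous_norm_le _ (by linarith) _
  choose e he1 he2 using hext
  -- new codes
  let L : ℕ := s.sup Prod.fst + 1
  have hL : ∀ c ∈ s, c.1 < L := fun c hc => Nat.lt_succ_of_le (Finset.le_sup (f := Prod.fst) hc)
  let cc : Fin N → C := fun k => mkc L (a k) k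
  have hcc : Function.Injective cc := fun k l hkl => Fin.ext (mkc_inj hkl)
  have hccs : ∀ k, cc k ∉ s := fun k hk => lt_irrefl _ (hL _ hk)
  have hdat : ∀ k, dat (cc k) = a k := fun k => dat_mkc _ _ _
  have hval : ∀ k, Val (cc k) := by
    intro k
    refine ⟨?_, ?_⟩
    · rw [hdat]
      intro d hd
      exact hL d (ha1 k hd)
    · rw [hdat]; exact ha2 k
  let s' : Finset C := s ∪ Finset.univ.image cc
  have hs' : Cl s' := by
    intro c hc hv d hd
    rcases Finset.mem_union.1 hc with hc | hc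
    · exact Finset.mem_union_left _ (hs c hc hv d hd)
    · obtain ⟨k, -, rfl⟩ := Finset.mem_image.1 hc
      rw [hdat] at hd
      exact Finset.mem_union_left _ (ha1 k hd)
  let W : T →ₗ[ℝ] (C → ℝ) := LinearMap.pi fun c =>
    if c ∈ s then (e c).toLinearMap else
      if hk : ∃ k, cc k = c then (1 - δ) • (h hk.choose).toLinearMap else 0
  have hW1 : ∀ t, ∀ c ∈ s, W t c = e c t := by
    intro t c hc
    simp only [W, LinearMap.pi_apply, if_pos hc]
    rfl
  have hW2 : ∀ t k, W t (cc k) = (1 - δ) * h k t := by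
    intro t k
    have hex : ∃ l, cc l = cc k := ⟨k, rfl⟩
    have hch : hex.choose = k := hcc hex.choose_spec
    simp only [W, LinearMap.pi_apply, if_neg (hccs k), dif_pos hex]
    rw [hch]
    rfl
  let g' : T →ₗ[ℝ] Amb := (io.comp (liftL s')).comp W
  have hg'F : ∀ t, ∀ c ∈ s', F c (lift s' (W t)) = W t c := fun t c hc => F_lift hs' _ c hc
  have hg'le : ∀ t, ‖g' t‖ ≤ (1 + δ) * ‖t‖ := by
    intro t
    refine norm_io_le' (s := s') (fun c hc => lift_apply_not s' _ c hc) (by positivity) ?_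
    intro c hc
    rw [hg'F t c hc]
    rcases Finset.mem_union.1 hc with hc | hc
    · rw [hW1 t c hc]
      exact ((e c).le_opNorm t).trans (mul_le_mul_of_nonneg_right (he2 c) (norm_nonneg _))
    · obtain ⟨k, -, rfl⟩ := Finset.mem_image.1 hc
      rw [hW2, abs_mul, abs_of_nonneg (by linarith)]
      have h1 : |h k t| ≤ ‖t‖ := ((h k).le_opNorm t).trans
        ((mul_le_mul_of_nonneg_right (hh1 k) (norm_nonneg _)).trans (by rw [one_mul]))
      have h2 : 0 ≤ |h k t| := abs_nonneg _
      nlinarith [norm_nonneg t]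
  have hg'ge : ∀ t, (1 - 2 * δ) * ‖t‖ ≤ ‖g' t‖ := by
    intro t
    by_cases ht : t = 0
    · rw [ht]; simp
    obtain ⟨k, hk⟩ := hh2 t ht
    have h1 := le_norm_io (lift s' (W t)) (cc k)
    rw [hg'F t (cc k) (Finset.mem_union_right _ (Finset.mem_image_of_mem _ (Finset.mem_univ k))),
      hW2, abs_mul, abs_of_nonneg (by linarith)] at h1
    refine le_trans ?_ h1
    have h2 : (1 - δ) * ((1 - δ) * ‖t‖) ≤ (1 - δ) * |h k t| :=
      mul_le_mul_of_nonneg_left hk (by linarith)
    nlinarith [norm_nonneg t, mul_nonneg (mul_nonneg hδ.le hδ.le) (norm_nonneg t)]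
  have hg'P : ∀ x : P, g' x = io (w x) := by
    intro x
    refine io_eq (s := s') (fun c hc => lift_apply_not s' _ c hc) (fun c hc => hws x c
      (fun h => hc (Finset.mem_union_left _ h))) fun c hc => ?_
    have hx := hg'F x c hc
    change F c (lift s' (W x)) = _
    rw [hx]
    rcases Finset.mem_union.1 hc with hc | hc
    · rw [hW1 _ c hc, he1]
    · obtain ⟨k, -, rfl⟩ := Finset.mem_image.1 hc
      rw [hW2, F_of_val (hval k), hws x _ (hccs k), zero_add, hdat]
      exact ha3 k x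
  have hg'X : ∀ t, g' t ∈ X := fun t => subset_closure ⟨_, rfl⟩
  let g0 : T →ₗ[ℝ] X := g'.codRestrict X hg'X
  let u : P →ₗ[ℝ] X := f.toLinearMap - (io.comp w).codRestrict X (fun x => subset_closure ⟨_, rfl⟩)
  have hu : ∀ x, ‖u x‖ ≤ δ * ‖x‖ := by
    intro x
    have h1 : ‖u x‖ = ‖(f x : Amb) - io (w x)‖ := rfl
    rw [h1, norm_sub_rev]
    exact hw x
  refine ⟨g0 + u.comp pr.toLinearMap, fun t => ?_, fun x => ?_⟩
  · have h1 : ‖g0 t‖ = ‖g' t‖ := rfl
    have h2 : ‖u (pr t)‖ ≤ δ * M * ‖t‖ := by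
      refine (hu _).trans ?_
      rw [mul_assoc]
      exact mul_le_mul_of_nonneg_left (pr.le_opNorm t) hδ.le
    have h3 : (g0 + u.comp pr.toLinearMap) t = g0 t + u (pr t) := rfl
    rw [h3]
    have h4 := norm_add_le (g0 t) (u (pr t))
    have h5 := norm_sub_le (g0 t + u (pr t)) (u (pr t))
    rw [add_sub_cancel_right] at h5
    have h6 := hg'le t
    have h7 := hg'ge t
    have hfrac : ε / (1 + ε) = 1 - (1 + ε)⁻¹ := by field_simp; ring
    rw [hfrac] at hδ2
    have h8 : ε / (1 + ε) ≤ ε := by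
      rw [div_le_iff₀ (by positivity)]
      nlinarith
    rw [hfrac] at h8
    have ht := norm_nonneg t
    constructor
    · have : (1 + ε)⁻¹ * ‖t‖ ≤ (1 - δ * (2 + M)) * ‖t‖ :=
        mul_le_mul_of_nonneg_right (by linarith) ht
      nlinarith
    · have : (1 + δ * (2 + M)) * ‖t‖ ≤ (1 + ε) * ‖t‖ :=
        mul_le_mul_of_nonneg_right (by linarith) ht
      nlinarith [mul_nonneg hδ.le ht]
  · have h3 : (g0 + u.comp pr.toLinearMap) x = g0 x + u (pr x) := rfl
    rw [h3, hpr]
    apply Subtype.ext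
    change g' x + ((f x : Amb) - io (w x)) = f x
    rw [hg'P]
    abel

/-- the unit vectors -/
noncomputable def ev (c : C) : X :=
  ⟨io (Finsupp.single c 1), subset_closure ⟨_, rfl⟩⟩

theorem level_bound (n : ℕ) (t : Finset C) (ht : ∀ c ∈ t, c.1 = n) (r : C → ℝ)
    (hr : ∀ c, |r c| ≤ 1) : ‖io (∑ c ∈ t, r c • Finsupp.single c 1)‖ ≤ 1 := by
  classical
  set v : V := ∑ c ∈ t, r c • Finsupp.single c 1 with hv
  have hvc : ∀ c, v c = if c ∈ t then r c else 0 := by
    intro c
    rw [hv, Finsupp.finsetSum_apply]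
    by_cases hc : c ∈ t
    · rw [if_pos hc, Finset.sum_eq_single c]
      · simp
      · intro d _ hd
        simp [hd]
      · intro h; exact absurd hc h
    · rw [if_neg hc]
      apply Finset.sum_eq_zero
      intro d hd
      have : d ≠ c := fun h => hc (h ▸ hd)
      simp [this]
  have key : ∀ c : C, (c.1 < n → F c v = 0) ∧ |F c v| ≤ 1 := by
    intro c
    induction c using ind with
    | _ c ih =>
      have hlow : c.1 ≤ n → F c v = v c := by
        intro hcn
        by_cases hval : Val c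
        · rw [F_of_val hval, Finset.sum_eq_zero, add_zero]
          intro d hd
          rw [(ih d (hval.1 d hd)).1 (lt_of_lt_of_le (hval.1 d hd) hcn), mul_zero]
        · rw [F_of_not_val hval]
      constructor
      · intro hcn
        rw [hlow hcn.le, hvc, if_neg (fun h => (ht c h ▸ hcn).ne rfl)]
      · by_cases hcn : c.1 ≤ n
        · rw [hlow hcn, hvc]
          split_ifs
          · exact hr c
          · simp
        · have hct : c ∉ t := fun h => hcn (ht c h).le
          by_cases hval : Val c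
          · rw [F_of_val hval, hvc, if_neg hct, zero_add]
            refine (Finset.abs_sum_le_sum_abs _ _).trans ?_
            refine le_trans (Finset.sum_le_sum fun d hd => ?_) hval.2
            rw [abs_mul]
            exact mul_le_of_le_one_right (abs_nonneg _) (ih d (hval.1 d hd)).2
          · rw [F_of_not_val hval, hvc, if_neg hct]
            simp
  exact norm_io_le zero_le_one fun c => (key c).2

end Pool.Agent.H96wcg
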