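import Mathlib

set_option autoImplicit false

namespace Pool.Agent.H96wcg

open Set

universe u

section Abstract

variable {C E : Type u} [NormedAddCommGroup E] [NormedSpace ℝ E] (lev : C → ℕ) (e : C → E)
  (hb : ∀ (n : ℕ) (t : Finset C), (∀ c ∈ t, lev c = n) → ∀ r : C → ℝ, (∀ c, |r c| ≤ 1) →
    ‖∑ c ∈ t, r c • e c‖ ≤ 1)

include hb

theorem sum_functional (g : E →L[ℝ] ℝ) (n : ℕ) (t : Finset C) (ht : ∀ c ∈ t, lev c = n) :
    ∑ c ∈ t, |g (e c)| ≤ ‖g‖ := by
  let r : C → ℝ := fun c => (SignType.sign (g (e c)) : ℝ)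
  have hr : ∀ c, |r c| ≤ 1 := by
    intro c
    rcases lt_trichotomy (g (e c)) 0 with h | h | h <;> simp [r, h]
  have h1 : ∑ c ∈ t, |g (e c)| = g (∑ c ∈ t, r c • e c) := by
    rw [map_sum]
    refine Finset.sum_congr rfl fun c _ => ?_
    rw [map_smul, smul_eq_mul]
    exact (sign_mul_self _).symm
  have h2 := hb n t ht r hr
  rw [h1]
  refine (le_abs_self _).trans ((g.le_opNorm _).trans ?_)
  calc ‖g‖ * ‖∑ c ∈ t, r c • e c‖ ≤ ‖g‖ * 1 := mul_le_mul_of_nonneg_left h2 (norm_nonneg _)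
    _ = ‖g‖ := mul_one _

theorem finite_level (g : E →L[ℝ] ℝ) (n : ℕ) {η : ℝ} (hη : 0 < η) :
    {c : C | lev c = n ∧ η ≤ |g (e c)|}.Finite := by
  by_contra hinf
  obtain ⟨m, hm⟩ := exists_nat_gt (‖g‖ / η)
  obtain ⟨t, ht, htc⟩ := Set.Infinite.exists_subset_card_eq hinf m
  have h1 := sum_functional lev e hb g n t (fun c hc => (ht hc).1)
  have h2 : (m : ℝ) * η ≤ ∑ c ∈ t, |g (e c)| := by
    rw [← htc, ← nsmul_eq_mul]
    exact Finset.card_nsmul_le_sum t _ _ fun c hc => (ht hc).2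
  rw [div_lt_iff₀ hη] at hm
  linarith

theorem norm_e_le (c : C) : ‖e c‖ ≤ 1 := by
  have h := hb (lev c) {c} (by simp) (fun _ => 1) (by simp)
  simpa using h

theorem finite_wv (g : E →L[ℝ] ℝ) {η : ℝ} (hη : 0 < η) :
    {c : C | η ≤ |g (((1 / 2 : ℝ) ^ lev c) • e c)|}.Finite := by
  obtain ⟨N, hN⟩ := exists_pow_lt_of_lt_one (show 0 < η / (‖g‖ + 1) by positivity)
    (show (1 / 2 : ℝ) < 1 by norm_num)
  refine ((Set.finite_Iio N).biUnion fun n _ => finite_level lev e hb g n hη).subset ?_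
  intro c hc
  have hc' : η ≤ |g (((1 / 2 : ℝ) ^ lev c) • e c)| := hc
  have h1 : |g (((1 / 2 : ℝ) ^ lev c) • e c)| = (1 / 2 : ℝ) ^ lev c * |g (e c)| := by
    rw [map_smul, smul_eq_mul, abs_mul, abs_of_nonneg (by positivity)]
  have h2 : |g (e c)| ≤ ‖g‖ := (g.le_opNorm _).trans
    ((mul_le_mul_of_nonneg_left (norm_e_le lev e hb c) (norm_nonneg _)).trans (by rw [mul_one]))
  have h3 : (1 / 2 : ℝ) ^ lev c ≤ 1 := pow_le_one₀ (by norm_num) (by norm_num)
  refine mem_iUnion₂.2 ⟨lev c, ?_, rfl, ?_⟩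
  · rw [mem_Iio]
    by_contra hcon
    have h4 : (1 / 2 : ℝ) ^ lev c ≤ (1 / 2 : ℝ) ^ N :=
      pow_le_pow_of_le_one (by norm_num) (by norm_num) (not_lt.1 hcon)
    have h5 : |g (((1 / 2 : ℝ) ^ lev c) • e c)| < η := by
      rw [h1]
      calc (1 / 2 : ℝ) ^ lev c * |g (e c)| ≤ (1 / 2 : ℝ) ^ N * ‖g‖ :=
            mul_le_mul h4 h2 (abs_nonneg _) (by positivity)
        _ ≤ η / (‖g‖ + 1) * ‖g‖ := mul_le_mul_of_nonneg_right hN.le (norm_nonneg _)
        _ < η := by
            rw [div_mul_eq_mul_div, div_lt_iff₀ (by positivity)]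
            nlinarith [norm_nonneg g]
    exact absurd hc' (not_le.2 h5)
  · rw [h1] at hc'
    have := mul_le_of_le_one_left (abs_nonneg (g (e c))) h3
    linarith

theorem wcg_abstract (hd : Dense (Submodule.span ℝ (range e) : Set E)) :
    ∃ W : Set E, IsCompact (toWeakSpace ℝ E '' W) ∧
    Dense (Submodule.span ℝ W : Set E) := by
  refine ⟨insert 0 (range fun c => ((1 / 2 : ℝ) ^ lev c) • e c), ?_, ?_⟩
  · have h1 : Filter.Tendsto (fun c => toWeakSpace ℝ E (((1 / 2 : ℝ) ^ lev c) • e c))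
        Filter.cofinite (nhds (toWeakSpace ℝ E 0)) := by
      have hinj : Function.Injective (topDualPairing ℝ E).flip := by
        intro x y h
        refine (SeparatingDual.eq_iff_forall_dual_eq (R := ℝ)).2 fun g => ?_
        exact LinearMap.congr_fun h g
      refine (WeakBilin.tendsto_iff_forall_eval_tendsto (topDualPairing ℝ E).flip hinj).2 ?_
      intro g
      change Filter.Tendsto (fun c => g (((1 / 2 : ℝ) ^ lev c) • e c)) Filter.cofinite
        (nhds (g 0))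
      rw [map_zero, Metric.tendsto_nhds]
      intro η hη
      rw [Filter.eventually_cofinite]
      refine (finite_wv lev e hb g hη).subset fun c hc => ?_
      simp only [mem_ofPred_eq, dist_zero_right, Real.norm_eq_abs, not_lt] at hc ⊢
      exact hc
    have h2 := h1.isCompact_insert_range_of_cofinite
    rw [image_insert_eq, ← range_comp]
    exact h2
  · refine hd.mono ?_
    apply Submodule.span_le.2
    rintro _ ⟨c, rfl⟩
    have h3 : ((1 / 2 : ℝ) ^ lev c) • e c ∈ Submodule.span ℝ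
        (insert 0 (range fun c => ((1 / 2 : ℝ) ^ lev c) • e c)) :=
      Submodule.subset_span (Or.inr ⟨c, rfl⟩)
    have h4 := Submodule.smul_mem _ ((1 / 2 : ℝ) ^ lev c)⁻¹ h3
    rwa [smul_smul, inv_mul_cancel₀ (by positivity), one_smul] at h4

end Abstract

end Pool.Agent.H96wcg
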